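import Mathlib

set_option autoImplicit false

/-!
# Flag-transitive point-imprimitive symmetric designs outside the product construction

For every `m ≥ 2` the complementary design of the points and hyperplanes of `PG(2m-1,2)` is a
symmetric design with a flag-transitive point-imprimitive group (the group `ΓL(m,4)`) which does
not arise from the product construction.
-/

namespace Pool.Agent.Results.MP_14f8d9_co.ComplementsOfProjectiveSpaces

/-- `B` is the family of the blocks of a `2-(v,k,l)` design on the point set `X`; the family may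
have repetitions. -/
structure IsTwoDesign {X ι : Type} (B : ι → Set X) (v k l : ℕ) : Prop where
  card_points : Nat.card X = v
  card_block : ∀ i, (B i).ncard = k
  card_pairs : ∀ x y, x ≠ y → {i | x ∈ B i ∧ y ∈ B i}.ncard = l

/-- The input of the construction. -/
structure Input where
  /-- the points, the blocks and the parallel classes of the first design, the points and the
  blocks of the second design, and the blocks of the transversal design -/
  (Δ₀ L₀ P₀ Δ₁ L₁ L₂ : Type)
  [finΔ₀ : Finite Δ₀] [finL₀ : Finite L₀] [finP₀ : Finite P₀] [finΔ₁ : Finite Δ₁]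
  [finL₁ : Finite L₁] [finL₂ : Finite L₂]
  (v₀ k₀ l₀ s r v₁ l₁ k₂ l₂ : ℕ)
  /-- the points on a block of the first design -/
  ℓ : L₀ → Set Δ₀
  /-- the parallel class of a block of the first design -/
  cls : L₀ → P₀
  design₀ : IsTwoDesign ℓ v₀ k₀ l₀
  partition₀ : ∀ (P : P₀) (x : Δ₀), ∃! a, cls a = P ∧ x ∈ ℓ a
  card_class : ∀ P : P₀, {a | cls a = P}.ncard = s
  card_P₀ : Nat.card P₀ = r
  /-- the points on a block of the second design -/
  B₁ : L₁ → Set Δ₁
  design₁ : IsTwoDesign B₁ v₁ r l₁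
  symmetric₁ : Nat.card L₁ = v₁
  /-- the bijections from the parallel classes to the points of the block `β` -/
  ψ : ∀ β : L₁, P₀ ≃ B₁ β
  ψ_unique : ∀ (P : P₀) (i : Δ₁), ∃! β, (ψ β P : Δ₁) = i
  /-- the points on a block of the transversal design -/
  B₂ : L₂ → Set L₀
  k₂_le : k₂ ≤ r
  card_B₂ : ∀ γ, (B₂ γ).ncard = k₂
  transversal : ∀ γ, ∀ a ∈ B₂ γ, ∀ a' ∈ B₂ γ, cls a = cls a' → a = a'
  pairs₂ : ∀ a a', cls a ≠ cls a' → {γ | a ∈ B₂ γ ∧ a' ∈ B₂ γ}.ncard = l₂

/-- The block `B_β(γ)` of the output design: the union over the points `j` of `β` of the sets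
`ℓ_j × {j}`, where `ℓ_j` is the block of the first design which is in `γ` and in the class
`ψ_β⁻¹(j)` (if there is one). -/
def Input.output (I : Input) (b : I.L₁ × I.L₂) : Set (I.Δ₀ × I.Δ₁) :=
  {p | ∃ j : I.B₁ b.1, p.2 = j ∧ ∃ a ∈ I.B₂ b.2, I.cls a = (I.ψ b.1).symm j ∧ p.1 ∈ I.ℓ a}

/-- The design with the family of blocks `B` is isomorphic to an output of the construction with
`v₀ ≥ 2` and `v₁ ≥ 2` (multiplicities of the blocks are ignored). -/
def Arises {X ι : Type} (B : ι → Set X) : Prop :=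
  ∃ I : Input, 2 ≤ I.v₀ ∧ 2 ≤ I.v₁ ∧
    ∃ e : I.Δ₀ × I.Δ₁ ≃ X, Set.range (fun b => e '' I.output b) = Set.range B

/-- `G` consists of automorphisms of the design and is transitive on the flags. -/
def FlagTransitive {X ι : Type} (B : ι → Set X) (G : Subgroup (Equiv.Perm X)) : Prop :=
  (∀ g ∈ G, Set.range (fun i => g '' B i) = Set.range B) ∧
    ∀ x i y j, x ∈ B i → y ∈ B j → ∃ g ∈ G, g x = y ∧ g '' B i = B j

/-- `G` preserves a partition of the points which is neither the partition into singletons nor the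
one-part partition. -/
def PointImprimitive {X : Type} (G : Subgroup (Equiv.Perm X)) : Prop :=
  ∃ R : Setoid X, R ≠ ⊥ ∧ R ≠ ⊤ ∧ ∀ g ∈ G, ∀ x y, R x y ↔ R (g x) (g y)

/-! ### The outputs -/

theorem output_ncard (I : Input) (b : I.L₁ × I.L₂) : (I.output b).ncard = I.k₂ * I.k₀ := by
  classical
  obtain ⟨β, γ⟩ := b
  have := I.finΔ₀
  have := I.finL₀
  have := I.finP₀
  have := I.finΔ₁
  have := Fintype.ofFinite I.Δ₀
  have := Fintype.ofFinite I.L₀
  have := Fintype.ofFinite I.Δ₁
  have h1 : I.output (β, γ) = ((Set.toFinset (I.B₂ γ)).biUnion fun a =>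
      (Set.toFinset (I.ℓ a)).image fun x => (x, (I.ψ β (I.cls a) : I.Δ₁)) : Set (I.Δ₀ × I.Δ₁)) := by
    ext ⟨x, j⟩
    simp only [Input.output, Set.mem_ofPred_eq, Finset.coe_biUnion, Finset.coe_image,
      Set.mem_iUnion, Set.mem_image, Set.coe_toFinset, Prod.mk.injEq]
    constructor
    · rintro ⟨j', hj, a, ha, hc, hx⟩
      refine ⟨a, ha, x, hx, rfl, ?_⟩
      rw [hc, Equiv.apply_symm_apply]
      exact hj.symm
    · rintro ⟨a, ha, x', hx, rfl, hj⟩
      refine ⟨I.ψ β (I.cls a), hj.symm, a, ha, ?_, hx⟩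
      rw [Equiv.symm_apply_apply]
  rw [h1, Set.ncard_coe_finset, Finset.card_biUnion]
  · have h2 : ∀ a ∈ Set.toFinset (I.B₂ γ), ((Set.toFinset (I.ℓ a)).image fun x =>
        (x, (I.ψ β (I.cls a) : I.Δ₁))).card = I.k₀ := by
      intro a _
      rw [Finset.card_image_of_injective _ (fun x y h => congrArg Prod.fst h),
        ← Set.ncard_eq_toFinset_card', I.design₀.card_block]
    rw [Finset.sum_congr rfl h2, Finset.sum_const, smul_eq_mul, ← Set.ncard_eq_toFinset_card',
      I.card_B₂]
  · intro a ha a' ha' hne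
    change Disjoint _ _
    rw [Finset.disjoint_left]
    rintro ⟨x, j⟩ h3 h4
    simp only [Finset.mem_image, Set.mem_toFinset, Prod.mk.injEq] at h3 h4
    obtain ⟨x1, -, -, h5⟩ := h3
    obtain ⟨x2, -, -, h6⟩ := h4
    apply hne
    rw [Finset.mem_coe, Set.mem_toFinset] at ha ha'
    apply I.transversal γ a ha a' ha'
    apply (I.ψ β).injective
    apply Subtype.ext
    rw [h5, h6]

/-- each block of the first design has a size which divides the number of points -/
theorem block_dvd (I : Input) [hP : Nonempty I.P₀] : I.k₀ ∣ I.v₀ := by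
  classical
  have := I.finΔ₀
  have := I.finL₀
  have := Fintype.ofFinite I.Δ₀
  have := Fintype.ofFinite I.L₀
  obtain ⟨P⟩ := hP
  have h1 : (Finset.univ : Finset I.Δ₀).card =
      ∑ a ∈ Finset.univ.filter (fun a : I.L₀ => I.cls a = P), (Set.toFinset (I.ℓ a)).card := by
    rw [← Finset.card_biUnion]
    · congr 1
      ext x
      simp only [Finset.mem_univ, Finset.mem_biUnion, Finset.mem_filter, true_and,
        Set.mem_toFinset, true_iff]
      obtain ⟨a, ha, -⟩ := I.partition₀ P x
      exact ⟨a, ha⟩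
    · intro a ha a' ha' hne
      change Disjoint _ _
      rw [Finset.disjoint_left]
      intro x h3 h4
      rw [Set.mem_toFinset] at h3 h4
      simp only [Finset.coe_filter, Finset.mem_univ, true_and, Set.mem_ofPred_eq] at ha ha'
      exact hne ((I.partition₀ P x).unique ⟨ha, h3⟩ ⟨ha', h4⟩)
  rw [Finset.sum_congr rfl (fun a _ => by
    rw [← Set.ncard_eq_toFinset_card', I.design₀.card_block]), Finset.sum_const, smul_eq_mul,
    Finset.card_univ, ← Nat.card_eq_fintype_card, I.design₀.card_points] at h1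
  exact ⟨_, h1.trans (mul_comm _ _)⟩

/-- No output has the parameters of the complementary design of `PG(2m-1,2)`. -/
theorem not_arises {X ι : Type} [Nonempty ι] (B : ι → Set X) (m : ℕ) (hm : 2 ≤ m)
    (hX : Nat.card X = 4 ^ m - 1) (hB : ∀ i, (B i).ncard = 2 ^ (2 * m - 1)) : ¬ Arises B := by
  rintro ⟨I, hv0, hv1, e, he⟩
  have hf0 := I.finΔ₀
  have hf1 := I.finΔ₁
  have h4 : 4 ^ m = 2 * 2 ^ (2 * m - 1) := by
    rw [← pow_succ', show 2 * m - 1 + 1 = 2 * m by omega, pow_mul]
    norm_num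
  have hpos : 0 < 2 ^ (2 * m - 1) := by positivity
  obtain ⟨i⟩ := ‹Nonempty ι›
  have h1 : B i ∈ Set.range (fun b => e '' I.output b) := by
    rw [he]
    exact ⟨i, rfl⟩
  obtain ⟨b, hb⟩ := h1
  have h2 : I.k₂ * I.k₀ = 2 ^ (2 * m - 1) := by
    rw [← output_ncard I b, ← hB i, ← hb]
    exact (Set.ncard_image_of_injective _ e.injective).symm
  have h3 : I.v₀ * I.v₁ = 4 ^ m - 1 := by
    rw [← hX, ← Nat.card_congr e, Nat.card_prod, I.design₀.card_points, I.design₁.card_points]
  have hr : 0 < I.r := by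
    have h5 : I.k₂ ≠ 0 := by
      intro h
      rw [h, zero_mul] at h2
      omega
    have := I.k₂_le
    omega
  have hP : Nonempty I.P₀ := by
    by_contra h
    rw [not_nonempty_iff] at h
    have := I.card_P₀
    rw [Nat.card_of_isEmpty] at this
    omega
  have hdvd := block_dvd I
  -- the block size of the first design is odd, hence 1
  have hodd : Odd I.k₀ := by
    have h5 : Odd (I.v₀ * I.v₁) := by
      rw [h3, h4]
      refine ⟨2 ^ (2 * m - 1) - 1, ?_⟩
      omega
    exact (Nat.odd_mul.1 h5).1.of_dvd_nat hdvd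
  have hk0 : I.k₀ = 1 := by
    have h5 : I.k₀ ∣ 2 ^ (2 * m - 1) := ⟨I.k₂, by rw [← h2, mul_comm]⟩
    obtain ⟨t, -, ht⟩ := (Nat.dvd_prime_pow Nat.prime_two).1 h5
    rcases Nat.eq_zero_or_pos t with h | h
    · rw [ht, h, pow_zero]
    · exfalso
      rw [ht] at hodd
      have : Even (2 ^ t) := (Nat.even_pow.2 ⟨even_two, by omega⟩)
      exact (Nat.not_even_iff_odd.2 hodd) this
  rw [hk0, mul_one] at h2
  have hrv : I.r ≤ I.v₁ := by
    have := I.design₁.card_block b.1
    rw [← this, ← I.design₁.card_points]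
    exact Set.ncard_le_card _
  have := I.k₂_le
  have h6 : 2 * I.v₁ ≤ I.v₀ * I.v₁ := Nat.mul_le_mul_right _ hv0
  omega

/-! ### The designs -/

section Geometry

set_option linter.unusedSectionVars false

variable {K : Type} [Field K] [Fintype K] [CharP K 2] {m : ℕ}

/-- `t a = a² + a`; for `|K| = 4` this is the trace to the prime field -/
def t (a : K) : K := a ^ 2 + a

theorem t_add (a b : K) : t (a + b) = t a + t b := by
  unfold t
  rw [CharTwo.add_sq]
  ring

theorem t_zero : t (0 : K) = 0 := by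
  unfold t
  ring

theorem t_cases (hK : Fintype.card K = 4) (a : K) : t a = 0 ∨ t a = 1 := by
  have h1 : a ^ 4 = a := by
    have := FiniteField.pow_card a
    rwa [hK] at this
  have h2 : t a * (t a + 1) = 0 := by
    unfold t
    have h3 : (a ^ 2 + a) * (a ^ 2 + a + 1) = a ^ 4 + a + 2 * (a ^ 3 + a ^ 2) := by ring
    rw [h3, h1, CharTwo.add_self_eq_zero, CharTwo.two_eq_zero]
    ring
  rcases mul_eq_zero.1 h2 with h | h
  · exact Or.inl h
  · right
    exact CharTwo.add_eq_zero.1 h

theorem exists_t (hK : Fintype.card K = 4) : ∃ w : K, t w = 1 := by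
  by_contra hcon
  push Not at hcon
  have h1 : ∀ a : K, a = 0 ∨ a = 1 := by
    intro a
    rcases t_cases hK a with h | h
    · have h2 : a * (a + 1) = 0 := by
        rw [← h]
        unfold t
        ring
      rcases mul_eq_zero.1 h2 with h3 | h3
      · exact Or.inl h3
      · exact Or.inr (CharTwo.add_eq_zero.1 h3)
    · exact absurd h (hcon a)
  classical
  have h2 : (Finset.univ : Finset K) ⊆ {0, 1} := by
    intro a _
    simpa using h1 a
  have h3 := Finset.card_le_card h2
  rw [Finset.card_univ, hK] at h3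
  have h4 : ({0, 1} : Finset K).card ≤ 2 := Finset.card_le_two
  omega

variable (K m) in
/-- the points: the nonzero vectors of `K^m` -/
abbrev Pts : Type := {x : Fin m → K // x ≠ 0}

variable (K m) in
/-- the hyperplanes over the prime field are given by the nonzero functionals `φ` as the sets of
the vectors `x` with `t (φ x) = 0` -/
abbrev Fnl : Type := {φ : Module.Dual K (Fin m → K) // φ ≠ 0}

/-- the blocks: complements of hyperplanes -/
def Blk (φ : Fnl K m) : Set (Pts K m) := {x | t (φ.1 x.1) = 1}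

theorem Blk_def (φ : Fnl K m) (x : Pts K m) : x ∈ Blk φ ↔ t (φ.1 x.1) = 1 := Iff.rfl


theorem half {A : Type} [AddCommGroup A] [Finite A] (f : A → K) (hf : ∀ a b, f (a + b) = f a + f b)
    (h01 : ∀ a, f a = 0 ∨ f a = 1) (h1 : ∃ a, f a = 1) :
    2 * {a | f a = 1}.ncard = Nat.card A := by
  obtain ⟨a0, ha0⟩ := h1
  have h2 : {a | f a = 1}.ncard = {a | f a = 1}ᶜ.ncard := by
    apply Set.ncard_congr (fun a _ => a + a0)
    · intro a ha
      change f a = 1 at ha
      change ¬ f (a + a0) = 1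
      rw [hf, ha, ha0, CharTwo.add_self_eq_zero]
      exact zero_ne_one
    · intro a b _ _ h
      exact add_right_cancel h
    · intro b hb
      change ¬ f b = 1 at hb
      have hb0 : f b = 0 := (h01 b).resolve_right hb
      refine ⟨b - a0, ?_, sub_add_cancel b a0⟩
      have h3 : f b = f (b - a0) + f a0 := by rw [← hf, sub_add_cancel]
      rw [hb0, ha0] at h3
      change f (b - a0) = 1
      exact CharTwo.add_eq_zero.1 h3.symm
  have h3 := Set.ncard_add_ncard_compl {a | f a = 1}
  omega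

theorem quarter {A : Type} [AddCommGroup A] [Finite A] (f g : A → K)
    (hf : ∀ a b, f (a + b) = f a + f b) (hg : ∀ a b, g (a + b) = g a + g b)
    (hf01 : ∀ a, f a = 0 ∨ f a = 1) (hg01 : ∀ a, g a = 0 ∨ g a = 1) (hf1 : ∃ a, f a = 1)
    (hg1 : ∃ a, g a = 1) (hfg1 : ∃ a, f a + g a = 1) :
    4 * {a | f a = 1 ∧ g a = 1}.ncard = Nat.card A := by
  have e1 := half f hf hf01 hf1
  have e2 := half g hg hg01 hg1
  have e3 : 2 * {a | f a + g a = 1}.ncard = Nat.card A := by
    apply half (fun a => f a + g a) (fun a b => ?_) (fun a => ?_) hfg1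
    · rw [hf, hg]
      ring
    · rcases hf01 a with h | h <;> rcases hg01 a with h' | h' <;> rw [h, h']
      · exact Or.inl (add_zero _)
      · exact Or.inr (zero_add _)
      · exact Or.inr (add_zero _)
      · exact Or.inl (CharTwo.add_self_eq_zero _)
  have d1 : {a | f a = 1}.ncard = {a | f a = 1 ∧ g a = 1}.ncard + {a | f a = 1 ∧ g a = 0}.ncard := by
    rw [← Set.ncard_union_eq]
    · congr 1
      ext a
      simp only [Set.mem_ofPred_eq, Set.mem_union]
      have := hg01 a
      tauto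
    · rw [Set.disjoint_left]
      rintro a ⟨-, h⟩ ⟨-, h'⟩
      rw [h] at h'
      exact one_ne_zero h'
  have d2 : {a | g a = 1}.ncard = {a | f a = 1 ∧ g a = 1}.ncard + {a | f a = 0 ∧ g a = 1}.ncard := by
    rw [← Set.ncard_union_eq]
    · congr 1
      ext a
      simp only [Set.mem_ofPred_eq, Set.mem_union]
      have := hf01 a
      tauto
    · rw [Set.disjoint_left]
      rintro a ⟨h, -⟩ ⟨h', -⟩
      rw [h] at h'
      exact one_ne_zero h'
  have d3 : {a | f a + g a = 1}.ncard =
      {a | f a = 1 ∧ g a = 0}.ncard + {a | f a = 0 ∧ g a = 1}.ncard := by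
    rw [← Set.ncard_union_eq]
    · congr 1
      ext a
      simp only [Set.mem_ofPred_eq, Set.mem_union]
      rcases hf01 a with h | h <;> rcases hg01 a with h' | h' <;> rw [h, h'] <;>
        simp [CharTwo.add_self_eq_zero]
    · rw [Set.disjoint_left]
      rintro a ⟨h, -⟩ ⟨h', -⟩
      rw [h] at h'
      exact one_ne_zero h'
  omega

theorem card_ne_zero_add {A : Type} [AddCommGroup A] [Finite A] :
    Nat.card {x : A // x ≠ 0} + 1 = Nat.card A := by
  have h1 := Set.ncard_add_ncard_compl ({0} : Set A)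
  rw [Set.ncard_singleton] at h1
  have h2 : Nat.card {x : A // x ≠ 0} = ({0} : Set A)ᶜ.ncard := rfl
  omega

theorem card_V (hK : Fintype.card K = 4) : Nat.card (Fin m → K) = 4 ^ m := by
  rw [Nat.card_eq_fintype_card, Fintype.card_fun, hK, Fintype.card_fin]

variable (K m) in
/-- vectors and functionals -/
noncomputable def dualEquiv : (Fin m → K) ≃ₗ[K] Module.Dual K (Fin m → K) :=
  (Pi.basisFun K (Fin m)).toDualEquiv

instance : Finite (Module.Dual K (Fin m → K)) := Finite.of_equiv _ (dualEquiv K m).toEquiv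

theorem card_D (hK : Fintype.card K = 4) : Nat.card (Module.Dual K (Fin m → K)) = 4 ^ m := by
  rw [← card_V (m := m) hK]
  exact (Nat.card_congr (dualEquiv K m).toEquiv).symm

theorem exists_dual (x : Fin m → K) (hx : x ≠ 0) (w : K) :
    ∃ φ : Module.Dual K (Fin m → K), φ x = w := by
  obtain ⟨i, hi⟩ := Function.ne_iff.1 hx
  refine ⟨(w / x i) • LinearMap.proj i, ?_⟩
  change w / x i * x i = w
  exact div_mul_cancel₀ _ hi

theorem exists_vec (φ : Module.Dual K (Fin m → K)) (hφ : φ ≠ 0) (w : K) : ∃ x, φ x = w := by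
  have : ∃ y, φ y ≠ 0 := by
    by_contra h
    push Not at h
    exact hφ (LinearMap.ext h)
  obtain ⟨y, hy⟩ := this
  refine ⟨(w / φ y) • y, ?_⟩
  rw [map_smul, smul_eq_mul, div_mul_cancel₀ _ hy]

theorem t_ne_zero {a : K} (h : t a = 1) : a ≠ 0 := by
  rintro rfl
  rw [t_zero] at h
  exact zero_ne_one h

theorem isTwoDesign (hK : Fintype.card K = 4) (hm : 1 ≤ m) :
    IsTwoDesign (Blk : Fnl K m → Set (Pts K m)) (4 ^ m - 1) (2 ^ (2 * m - 1))
      (2 ^ (2 * m - 2)) := by
  have h2 : 4 ^ m = 2 * 2 ^ (2 * m - 1) := by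
    rw [← pow_succ', show 2 * m - 1 + 1 = 2 * m by omega, pow_mul]
    norm_num
  have h4 : 4 ^ m = 4 * 2 ^ (2 * m - 2) := by
    rw [h2, show 2 * m - 1 = 2 * m - 2 + 1 by omega, pow_succ]
    ring
  obtain ⟨w, hw⟩ := exists_t hK
  refine ⟨?_, ?_, ?_⟩
  · have := card_ne_zero_add (A := Fin m → K)
    rw [card_V hK] at this
    change Nat.card {x : Fin m → K // x ≠ 0} = _
    omega
  · intro φ
    have h3 : (Blk φ).ncard = {x : Fin m → K | t (φ.1 x) = 1}.ncard := by
      apply Set.ncard_congr (fun x _ => x.1)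
      · intro x hx
        exact hx
      · intro x y _ _ h
        exact Subtype.ext h
      · intro x hx
        refine ⟨⟨x, ?_⟩, hx, rfl⟩
        rintro rfl
        change t (φ.1 0) = 1 at hx
        rw [map_zero] at hx
        exact t_ne_zero hx rfl
    have h5 := half (fun x : Fin m → K => t (φ.1 x)) (fun a b => by
      rw [map_add, t_add]) (fun a => t_cases hK _) (by
        obtain ⟨x, hx⟩ := exists_vec φ.1 φ.2 w
        exact ⟨x, by rw [hx, hw]⟩)
    rw [card_V hK] at h5
    omega
  · intro x y hxy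
    have h3 : {φ : Fnl K m | x ∈ Blk φ ∧ y ∈ Blk φ}.ncard =
        {φ : Module.Dual K (Fin m → K) | t (φ x.1) = 1 ∧ t (φ y.1) = 1}.ncard := by
      apply Set.ncard_congr (fun φ _ => φ.1)
      · intro φ hφ
        exact hφ
      · intro φ φ' _ _ h
        exact Subtype.ext h
      · intro φ hφ
        refine ⟨⟨φ, ?_⟩, hφ, rfl⟩
        rintro rfl
        exact t_ne_zero hφ.1 rfl
    have hne : x.1 + y.1 ≠ 0 := by
      intro h
      apply hxy
      apply Subtype.ext
      funext i
      have := congrFun h i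
      exact CharTwo.add_eq_zero.1 this
    have h5 := quarter (fun φ : Module.Dual K (Fin m → K) => t (φ x.1)) (fun φ => t (φ y.1))
      (fun a b => by rw [LinearMap.add_apply, t_add]) (fun a b => by rw [LinearMap.add_apply, t_add])
      (fun a => t_cases hK _) (fun a => t_cases hK _)
      (by
        obtain ⟨φ, hφ⟩ := exists_dual x.1 x.2 w
        exact ⟨φ, by rw [hφ, hw]⟩)
      (by
        obtain ⟨φ, hφ⟩ := exists_dual y.1 y.2 w
        exact ⟨φ, by rw [hφ, hw]⟩)
      (by
        obtain ⟨φ, hφ⟩ := exists_dual (x.1 + y.1) hne w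
        exact ⟨φ, by rw [← t_add, ← map_add, hφ, hw]⟩)
    rw [card_D hK] at h5
    omega

/-! ### The group -/

/-- the partition into the one-dimensional subspaces over `K` -/
def lineSetoid : Setoid (Pts K m) where
  r x y := ∃ c : K, y.1 = c • x.1
  iseqv := by
    refine ⟨fun x => ⟨1, (one_smul _ _).symm⟩, ?_, ?_⟩
    · rintro x y ⟨c, hc⟩
      have hc0 : c ≠ 0 := by
        rintro rfl
        rw [zero_smul] at hc
        exact y.2 hc
      refine ⟨c⁻¹, ?_⟩
      rw [hc, smul_smul, inv_mul_cancel₀ hc0, one_smul]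
    · rintro x y z ⟨c, hc⟩ ⟨d, hd⟩
      exact ⟨d * c, by rw [hd, hc, smul_smul]⟩

theorem line_def (x y : Pts K m) : lineSetoid x y ↔ ∃ c : K, y.1 = c • x.1 := Iff.rfl

variable (K m) in
/-- the group of the automorphisms of the design which preserve the partition -/
def Grp : Subgroup (Equiv.Perm (Pts K m)) where
  carrier := {g | ((∀ φ, ∃ ψ, g '' Blk φ = Blk ψ) ∧ (∀ ψ, ∃ φ, g '' Blk φ = Blk ψ)) ∧
    ∀ x y, lineSetoid x y ↔ lineSetoid (g x) (g y)}
  one_mem' := by
    refine ⟨⟨fun φ => ⟨φ, ?_⟩, fun φ => ⟨φ, ?_⟩⟩, fun x y => Iff.rfl⟩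
    · simp
    · simp
  mul_mem' := by
    rintro g h ⟨⟨g1, g2⟩, g3⟩ ⟨⟨h1, h2⟩, h3⟩
    have e : ∀ S : Set (Pts K m), (g * h) '' S = g '' (h '' S) := by
      intro S
      rw [Set.image_image]
      rfl
    refine ⟨⟨?_, ?_⟩, ?_⟩
    · intro φ
      obtain ⟨ψ, hψ⟩ := h1 φ
      obtain ⟨χ, hχ⟩ := g1 ψ
      exact ⟨χ, by rw [e, hψ, hχ]⟩
    · intro χ
      obtain ⟨ψ, hψ⟩ := g2 χ
      obtain ⟨φ, hφ⟩ := h2 ψ
      exact ⟨φ, by rw [e, hφ, hψ]⟩
    · intro x y
      rw [h3, g3]
      rfl
  inv_mem' := by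
    rintro g ⟨⟨g1, g2⟩, g3⟩
    have e : ∀ S : Set (Pts K m), g.symm '' (g '' S) = S := by
      intro S
      rw [Set.image_image]
      simp
    refine ⟨⟨?_, ?_⟩, ?_⟩
    · intro φ
      obtain ⟨ψ, hψ⟩ := g2 φ
      refine ⟨ψ, ?_⟩
      change g.symm '' _ = _
      rw [← hψ, e]
    · intro φ
      obtain ⟨ψ, hψ⟩ := g1 φ
      refine ⟨ψ, ?_⟩
      change g.symm '' _ = _
      rw [← hψ, e]
    · intro x y
      change _ ↔ lineSetoid (g.symm x) (g.symm y)
      rw [g3 (g.symm x), Equiv.apply_symm_apply, Equiv.apply_symm_apply]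

/-- linear maps as permutations of the points -/
def lin (e : (Fin m → K) ≃ₗ[K] (Fin m → K)) : Equiv.Perm (Pts K m) :=
  e.toEquiv.subtypeEquiv (fun a => by
    change a ≠ 0 ↔ e a ≠ 0
    rw [Ne, Ne, LinearEquiv.map_eq_zero_iff])

theorem lin_apply (e : (Fin m → K) ≃ₗ[K] (Fin m → K)) (x : Pts K m) : (lin e x).1 = e x.1 := rfl

theorem lin_image (e : (Fin m → K) ≃ₗ[K] (Fin m → K)) (φ ψ : Fnl K m)
    (h : ∀ v, ψ.1 (e v) = φ.1 v) : lin e '' Blk φ = Blk ψ := by
  ext x
  constructor
  · rintro ⟨y, hy, rfl⟩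
    rw [Blk_def] at hy ⊢
    rw [lin_apply, h, hy]
  · intro hx
    refine ⟨(lin e).symm x, ?_, (lin e).apply_symm_apply x⟩
    rw [Blk_def] at hx ⊢
    rw [← h, ← lin_apply, Equiv.apply_symm_apply, hx]

theorem lin_mem (e : (Fin m → K) ≃ₗ[K] (Fin m → K)) : lin e ∈ Grp K m := by
  refine ⟨⟨?_, ?_⟩, ?_⟩
  · intro φ
    refine ⟨⟨φ.1 ∘ₗ e.symm.toLinearMap, ?_⟩, lin_image e _ _ ?_⟩
    · intro h
      apply φ.2
      apply LinearMap.ext
      intro v
      have := LinearMap.congr_fun h (e v)
      simpa using this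
    · intro v
      simp
  · intro φ
    refine ⟨⟨φ.1 ∘ₗ e.toLinearMap, ?_⟩, lin_image e _ _ ?_⟩
    · intro h
      apply φ.2
      apply LinearMap.ext
      intro v
      have := LinearMap.congr_fun h (e.symm v)
      simpa using this
    · intro v
      simp
  · intro x y
    rw [line_def, line_def]
    apply exists_congr
    intro c
    rw [lin_apply, lin_apply, ← map_smul]
    exact e.injective.eq_iff.symm

/-- the Frobenius map on vectors -/
def frob (v : Fin m → K) : Fin m → K := fun i => v i ^ 2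

theorem frob_frob (hK : Fintype.card K = 4) (v : Fin m → K) : frob (frob v) = v := by
  funext i
  unfold frob
  rw [← pow_mul]
  have := FiniteField.pow_card (v i)
  rwa [hK] at this

theorem frob_add (v w : Fin m → K) : frob (v + w) = frob v + frob w := by
  funext i
  unfold frob
  exact CharTwo.add_sq _ _

theorem frob_smul (c : K) (v : Fin m → K) : frob (c • v) = c ^ 2 • frob v := by
  funext i
  unfold frob
  exact mul_pow _ _ _

theorem frob_zero : frob (0 : Fin m → K) = 0 := by
  funext i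
  unfold frob
  exact zero_pow two_ne_zero

theorem frob_eq_zero (hK : Fintype.card K = 4) (v : Fin m → K) : frob v = 0 ↔ v = 0 := by
  constructor
  · intro h
    rw [← frob_frob hK v, h, frob_zero]
  · rintro rfl
    exact frob_zero

/-- the Frobenius map as a permutation of the points -/
def frobP (hK : Fintype.card K = 4) : Equiv.Perm (Pts K m) where
  toFun x := ⟨frob x.1, fun h => x.2 ((frob_eq_zero hK _).1 h)⟩
  invFun x := ⟨frob x.1, fun h => x.2 ((frob_eq_zero hK _).1 h)⟩
  left_inv x := Subtype.ext (frob_frob hK _)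
  right_inv x := Subtype.ext (frob_frob hK _)

theorem pow_four (hK : Fintype.card K = 4) (a : K) : a ^ 4 = a := by
  have := FiniteField.pow_card a
  rwa [hK] at this

/-- the action of the Frobenius map on functionals -/
def frobD (hK : Fintype.card K = 4) (φ : Module.Dual K (Fin m → K)) :
    Module.Dual K (Fin m → K) where
  toFun v := (φ (frob v)) ^ 2
  map_add' v w := by rw [frob_add, map_add, CharTwo.add_sq]
  map_smul' c v := by
    rw [frob_smul, map_smul, smul_eq_mul, mul_pow, ← pow_mul, pow_four hK]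
    rfl

theorem frobD_frob (hK : Fintype.card K = 4) (φ : Module.Dual K (Fin m → K)) (v : Fin m → K) :
    frobD hK φ (frob v) = (φ v) ^ 2 := by
  change (φ (frob (frob v))) ^ 2 = _
  rw [frob_frob hK]

theorem frobD_frobD (hK : Fintype.card K = 4) (φ : Module.Dual K (Fin m → K)) :
    frobD hK (frobD hK φ) = φ := by
  apply LinearMap.ext
  intro v
  change (frobD hK φ (frob v)) ^ 2 = _
  rw [frobD_frob, ← pow_mul, pow_four hK]

/-- the Frobenius map on the blocks -/
def frobF (hK : Fintype.card K = 4) (φ : Fnl K m) : Fnl K m :=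
  ⟨frobD hK φ.1, fun h => φ.2 (by
    rw [← frobD_frobD hK φ.1, h]
    apply LinearMap.ext
    intro v
    change (0 : K) ^ 2 = 0
    exact zero_pow two_ne_zero)⟩

theorem t_sq (hK : Fintype.card K = 4) (a : K) : t (a ^ 2) = t a := by
  unfold t
  rw [← pow_mul, pow_four hK, add_comm]

theorem frob_image (hK : Fintype.card K = 4) (φ : Fnl K m) :
    frobP hK '' Blk φ = Blk (frobF hK φ) := by
  have key : ∀ x : Pts K m, frobP hK x ∈ Blk (frobF hK φ) ↔ x ∈ Blk φ := by
    intro x
    rw [Blk_def, Blk_def]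
    change t (frobD hK φ.1 (frob x.1)) = 1 ↔ _
    rw [frobD_frob, t_sq hK]
  ext x
  constructor
  · rintro ⟨y, hy, rfl⟩
    exact (key y).2 hy
  · intro hx
    refine ⟨(frobP hK).symm x, ?_, (frobP hK).apply_symm_apply x⟩
    rw [← key, Equiv.apply_symm_apply]
    exact hx

theorem frob_mem (hK : Fintype.card K = 4) : frobP (m := m) hK ∈ Grp K m := by
  refine ⟨⟨fun φ => ⟨_, frob_image hK φ⟩, fun φ => ⟨frobF hK φ, ?_⟩⟩, ?_⟩
  · rw [frob_image]
    congr 1
    exact Subtype.ext (frobD_frobD hK φ.1)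
  · intro x y
    rw [line_def, line_def]
    change _ ↔ ∃ c : K, frob y.1 = c • frob x.1
    constructor
    · rintro ⟨c, hc⟩
      exact ⟨c ^ 2, by rw [hc, frob_smul]⟩
    · rintro ⟨c, hc⟩
      refine ⟨c ^ 2, ?_⟩
      rw [← frob_frob hK y.1, hc, frob_smul, frob_frob hK]

/-- the linear maps are transitive on the pairs of a vector and a functional with a fixed nonzero
value of the functional on the vector -/
theorem exists_lin (φ φ' : Module.Dual K (Fin m → K)) (x x' : Fin m → K) (a : K) (ha : a ≠ 0)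
    (hx : φ x = a) (hx' : φ' x' = a) :
    ∃ e : (Fin m → K) ≃ₗ[K] (Fin m → K), e x = x' ∧ ∀ v, φ' (e v) = φ v := by
  have h1 : φ ≠ 0 := by
    rintro rfl
    exact ha hx.symm
  have h2 : φ' ≠ 0 := by
    rintro rfl
    exact ha hx'.symm
  have h3 := Module.Dual.finrank_ker_add_one_of_ne_zero h1
  have h4 := Module.Dual.finrank_ker_add_one_of_ne_zero h2
  have h5 : Module.finrank K (LinearMap.ker φ) = Module.finrank K (LinearMap.ker φ') := by omega
  let e := LinearEquiv.ofFinrankEq _ _ h5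
  let p : (Fin m → K) →ₗ[K] LinearMap.ker φ :=
    LinearMap.codRestrict (LinearMap.ker φ) (LinearMap.id - (a⁻¹ • φ).smulRight x) (by
      intro v
      rw [LinearMap.mem_ker]
      simp [hx, ha, mul_comm])
  let g : (Fin m → K) →ₗ[K] (Fin m → K) :=
    (LinearMap.ker φ').subtype ∘ₗ e.toLinearMap ∘ₗ p + (a⁻¹ • φ).smulRight x'
  have hp : ∀ v, (p v : Fin m → K) = v - (a⁻¹ * φ v) • x := fun v => rfl
  have hg : ∀ v, g v = (e (p v) : Fin m → K) + (a⁻¹ * φ v) • x' := fun v => rfl
  have hφ : ∀ v, φ' (g v) = φ v := by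
    intro v
    rw [hg, map_add, map_smul, hx', LinearMap.mem_ker.1 (e (p v)).2, zero_add, smul_eq_mul]
    field_simp
  have hinj : Function.Injective g := by
    rw [injective_iff_map_eq_zero]
    intro v hv
    have e1 : φ v = 0 := by rw [← hφ, hv, map_zero]
    have e2 := hg v
    rw [hv, e1, mul_zero, zero_smul, add_zero] at e2
    have e3 : e (p v) = 0 := Subtype.ext e2.symm
    have e4 : p v = 0 := by rwa [LinearEquiv.map_eq_zero_iff] at e3
    have e5 := hp v
    rw [e4, e1, mul_zero, zero_smul, sub_zero] at e5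
    exact e5.symm
  refine ⟨LinearEquiv.ofInjectiveEndo g hinj, ?_, fun v => hφ v⟩
  change g x = x'
  have e1 : p x = 0 := by
    apply Subtype.ext
    rw [hp, hx, inv_mul_cancel₀ ha, one_smul, sub_self]
    rfl
  rw [hg, e1, map_zero, hx, inv_mul_cancel₀ ha, one_smul]
  exact zero_add _

theorem flagTransitive (hK : Fintype.card K = 4) :
    FlagTransitive (Blk : Fnl K m → Set (Pts K m)) (Grp K m) := by
  constructor
  · rintro g ⟨⟨h1, h2⟩, -⟩
    apply Set.Subset.antisymm
    · rintro _ ⟨φ, rfl⟩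
      obtain ⟨ψ, hψ⟩ := h1 φ
      exact ⟨ψ, hψ.symm⟩
    · rintro _ ⟨φ, rfl⟩
      exact h2 φ
  · intro x φ x' φ' h h'
    rw [Blk_def] at h h'
    by_cases hc : φ.1 x.1 = φ'.1 x'.1
    · obtain ⟨e, h1, h2⟩ := exists_lin φ.1 φ'.1 x.1 x'.1 _ (t_ne_zero h) rfl hc.symm
      exact ⟨lin e, lin_mem e, Subtype.ext h1, lin_image e _ _ h2⟩
    · have h3 : φ'.1 x'.1 = (φ.1 x.1) ^ 2 := by
        have h4 : t (φ.1 x.1 + φ'.1 x'.1) = 0 := by
          rw [t_add, h, h', CharTwo.add_self_eq_zero]
        have h5 : (φ.1 x.1 + φ'.1 x'.1) * (φ.1 x.1 + φ'.1 x'.1 + 1) = 0 := by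
          rw [← h4]
          unfold t
          ring
        rcases mul_eq_zero.1 h5 with h6 | h6
        · exact absurd (CharTwo.add_eq_zero.1 h6) hc
        · have h7 : (φ.1 x.1) ^ 2 + φ.1 x.1 + 1 = 0 := by
            have : t (φ.1 x.1) + 1 = 0 := by rw [h, CharTwo.add_self_eq_zero]
            exact this
          have h8 : φ'.1 x'.1 + (φ.1 x.1) ^ 2 = 0 := by
            have : φ'.1 x'.1 + (φ.1 x.1) ^ 2 = (φ.1 x.1 + φ'.1 x'.1 + 1) +
              ((φ.1 x.1) ^ 2 + φ.1 x.1 + 1) - 2 * (φ.1 x.1 + 1) := by ring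
            rw [this, h6, h7, CharTwo.two_eq_zero]
            ring
          exact CharTwo.add_eq_zero.1 h8
      have h9 : frobD hK φ.1 (frob x.1) = (φ.1 x.1) ^ 2 := frobD_frob hK _ _
      obtain ⟨e, h1, h2⟩ := exists_lin (frobD hK φ.1) φ'.1 (frob x.1) x'.1 _
        (pow_ne_zero 2 (t_ne_zero h)) h9 h3
      refine ⟨lin e * frobP hK, mul_mem (lin_mem e) (frob_mem hK), Subtype.ext h1, ?_⟩
      have h10 : (fun p => (lin e * frobP hK : Equiv.Perm (Pts K m)) p) '' Blk φ =
          lin e '' (frobP hK '' Blk φ) := by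
        rw [Set.image_image]
        rfl
      refine h10.trans ?_
      rw [frob_image]
      exact lin_image e _ _ h2

theorem pointImprimitive (hK : Fintype.card K = 4) (hm : 2 ≤ m) :
    PointImprimitive (Grp K m) := by
  refine ⟨lineSetoid, ?_, ?_, fun g hg => hg.2⟩
  · intro h
    obtain ⟨w, hw⟩ := exists_t hK
    let x : Pts K m := ⟨fun _ => 1, fun h => one_ne_zero (congrFun h ⟨0, by omega⟩)⟩
    let y : Pts K m := ⟨fun _ => w, fun h => t_ne_zero hw (congrFun h ⟨0, by omega⟩)⟩
    have h1 : lineSetoid x y := ⟨w, by funext i; exact (mul_one w).symm⟩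
    rw [h] at h1
    have h2 : x = y := h1
    have h3 : (1 : K) = w := congrFun (congrArg Subtype.val h2) ⟨0, by omega⟩
    rw [← h3] at hw
    unfold t at hw
    rw [one_pow, CharTwo.add_self_eq_zero] at hw
    exact zero_ne_one hw
  · intro h
    have e0 : (⟨0, by omega⟩ : Fin m) ≠ ⟨1, by omega⟩ := by
      intro h
      have := congrArg Fin.val h
      simp at this
    let x : Pts K m := ⟨Pi.single ⟨0, by omega⟩ 1, fun h => by
      have := congrFun h ⟨0, by omega⟩
      rw [Pi.single_eq_same] at this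
      exact one_ne_zero this⟩
    let y : Pts K m := ⟨Pi.single ⟨1, by omega⟩ 1, fun h => by
      have := congrFun h ⟨1, by omega⟩
      rw [Pi.single_eq_same] at this
      exact one_ne_zero this⟩
    have h1 : lineSetoid x y := by
      rw [h]
      trivial
    obtain ⟨c, hc⟩ := h1
    have h2 := congrFun hc ⟨1, by omega⟩
    rw [Pi.smul_apply, smul_eq_mul] at h2
    simp only [x, y] at h2
    rw [Pi.single_eq_same, Pi.single_eq_of_ne e0.symm, mul_zero] at h2
    exact one_ne_zero h2

theorem injective (hK : Fintype.card K = 4) : Function.Injective (Blk : Fnl K m → Set (Pts K m)) := by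
  intro φ ψ h
  by_contra hne
  have h1 : φ.1 + ψ.1 ≠ 0 := by
    intro h1
    apply hne
    apply Subtype.ext
    apply LinearMap.ext
    intro v
    exact CharTwo.add_eq_zero.1 (LinearMap.congr_fun h1 v)
  obtain ⟨w, hw⟩ := exists_t hK
  obtain ⟨x, hx⟩ := exists_vec _ h1 w
  have h2 : t (φ.1 x) + t (ψ.1 x) = 1 := by
    rw [← t_add, ← LinearMap.add_apply, hx, hw]
  have hx0 : x ≠ 0 := by
    rintro rfl
    rw [map_zero] at hx
    exact t_ne_zero hw hx.symm
  have h3 : t (φ.1 x) = 1 ↔ t (ψ.1 x) = 1 := by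
    have : (⟨x, hx0⟩ : Pts K m) ∈ Blk φ ↔ (⟨x, hx0⟩ : Pts K m) ∈ Blk ψ := by rw [h]
    exact this
  rcases t_cases hK (φ.1 x) with h4 | h4 <;> rcases t_cases hK (ψ.1 x) with h5 | h5 <;>
    rw [h4, h5] at h2 h3
  · rw [add_zero] at h2
    exact zero_ne_one h2
  · exact absurd (h3.2 rfl) zero_ne_one
  · exact absurd (h3.1 rfl) zero_ne_one
  · rw [CharTwo.add_self_eq_zero] at h2
    exact zero_ne_one h2

end Geometry

/-- **Main theorem.** For every `m ≥ 2` there is a symmetric `2`-`(4^m-1, 2^(2m-1), 2^(2m-2))`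
design without repeated blocks which has a flag-transitive point-imprimitive group of
automorphisms and which does not arise from the construction. -/
theorem result (m : ℕ) (hm : 2 ≤ m) :
    ∃ (X ι : Type) (_ : Finite X) (_ : Finite ι) (B : ι → Set X),
      Function.Injective B ∧ IsTwoDesign B (4 ^ m - 1) (2 ^ (2 * m - 1)) (2 ^ (2 * m - 2)) ∧
      Nat.card ι = 4 ^ m - 1 ∧
      (∃ G : Subgroup (Equiv.Perm X), FlagTransitive B G ∧ PointImprimitive G) ∧
      ¬ Arises B := by
  have hK4 : Nat.card (GaloisField 2 2) = 4 := by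
    rw [GaloisField.card 2 2 two_ne_zero]
    norm_num
  have := Fintype.ofFinite (GaloisField 2 2)
  have hK : Fintype.card (GaloisField 2 2) = 4 := by
    rw [← Nat.card_eq_fintype_card, hK4]
  have hcard : Nat.card (Fnl (GaloisField 2 2) m) = 4 ^ m - 1 := by
    have := card_ne_zero_add (A := Module.Dual (GaloisField 2 2) (Fin m → GaloisField 2 2))
    rw [card_D hK] at this
    change Nat.card {x : Module.Dual (GaloisField 2 2) (Fin m → GaloisField 2 2) // x ≠ 0} = _
    omega
  have h4 : 4 ≤ 4 ^ m := by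
    calc 4 = 4 ^ 1 := by norm_num
      _ ≤ 4 ^ m := Nat.pow_le_pow_right (by norm_num) (by omega)
  have hne : Nonempty (Fnl (GaloisField 2 2) m) := by
    by_contra h
    rw [not_nonempty_iff] at h
    rw [Nat.card_of_isEmpty] at hcard
    omega
  have hd := isTwoDesign (K := GaloisField 2 2) (m := m) hK (by omega)
  exact ⟨Pts (GaloisField 2 2) m, Fnl (GaloisField 2 2) m, inferInstance, inferInstance, Blk,
    injective hK, hd, hcard, ⟨Grp _ _, flagTransitive hK, pointImprimitive hK hm⟩,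
    not_arises Blk m hm hd.card_points hd.card_block⟩

end Pool.Agent.Results.MP_14f8d9_co.ComplementsOfProjectiveSpaces
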